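import Pool.Agent.Q128.GameKTree

/-!
# The order of growth of the game colouring number of powers of partial `k`-trees

The definitions (file `Pool.Agent.Q128.GameDefs`):

* `Win H s b S`: Alice can force score at most `s` in the marking game on `H` from the position in
  which the vertices of `S` are marked, where Alice (`b = true`) or Bob (`b = false`) is to move.
* `gcol H`: the game colouring number of `H`, the least `s` with `Win H s true ∅`.
* `pw G m`: the `m`-th power of `G`.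
* `InClass k Δ G`: `G` is a finite partial `k`-tree (a subgraph of a finite `k`-tree) of maximum
  degree at most `Δ`.
* `fkm k m Δ`: `f_{k,m}(Δ)`, the supremum of `gcol (pw G m)` over all graphs `G` in this class.
-/

namespace Pool.Agent.Results.MP_c9f8d2_co.OrderOfGrowth

open Pool.Agent.Q128.Game

/-- For fixed `k ≥ 1` and `m`, `f_{k,m}(Δ)` has order of growth `Δ ^ ⌊m / 2⌋`: there is a constant
`C` such that `f_{k,m}(Δ) ≤ C Δ ^ ⌊m / 2⌋` and `Δ ^ ⌊m / 2⌋ ≤ C f_{k,m}(Δ)` for all `Δ ≥ 1`. -/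
theorem result (k m : ℕ) (hk : 1 ≤ k) : ∃ C : ℕ, 0 < C ∧ ∀ Δ : ℕ, 1 ≤ Δ →
    fkm k m Δ ≤ ((C * Δ ^ (m / 2) : ℕ) : ℕ∞) ∧
      ((Δ ^ (m / 2) : ℕ) : ℕ∞) ≤ (C : ℕ∞) * fkm k m Δ :=
  growth k m hk

end Pool.Agent.Results.MP_c9f8d2_co.OrderOfGrowth
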